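import Pool.Agent.Helper30.TQ.St

/-!
# Project TQ (MP_ad0dc2_nt), module GAP: the gap principle
-/

set_option autoImplicit false

namespace Pool.Agent.Helper83.TQ

open Pool.Agent.Helper30.TQ

private theorem core {c E R W M : ℝ} (hc : 3 ≤ c) (hE : 1 < E) (hM : 4 * c ≤ M)
    (h1 : E * (R ^ 2 + M * W ^ 2) = 1)
    (h2 : 16 * c ^ 2 ≤ W ^ 2 * ((E - R) ^ 2 + M * W ^ 2) ^ 2) : 49 * c ^ 3 ≤ E ^ 3 := by
  obtain ⟨D, hD0, hDE⟩ : ∃ D : ℝ, 0 < D ∧ D ^ 2 = E :=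
    ⟨Real.sqrt E, Real.sqrt_pos.2 (by linarith), Real.sq_sqrt (by linarith)⟩
  have hD1 : 1 < D := by
    by_contra h
    push Not at h
    nlinarith
  obtain ⟨d, hd⟩ : ∃ d : ℝ, D * d = 1 := ⟨D⁻¹, mul_inv_cancel₀ hD0.ne'⟩
  have hd0 : 0 < d := by
    by_contra h
    push Not at h
    nlinarith
  have hd1 : d ≤ 1 := by
    by_contra h
    push Not at h
    nlinarith
  have hQ : R ^ 2 + M * W ^ 2 = d ^ 2 := by
    have e : D ^ 2 * (R ^ 2 + M * W ^ 2) = D ^ 2 * d ^ 2 := by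
      rw [hDE, h1]
      have : D ^ 2 * d ^ 2 = (D * d) ^ 2 := by ring
      rw [← hDE, this, hd]
      norm_num
    exact mul_left_cancel₀ (pow_ne_zero 2 hD0.ne') e
  have hMW : 4 * c * W ^ 2 ≤ M * W ^ 2 := mul_le_mul_of_nonneg_right hM (sq_nonneg W)
  have hMW0 : 0 ≤ M * W ^ 2 := le_trans (by positivity) hMW
  have hR : R ^ 2 ≤ d ^ 2 := by linarith
  have hR1 : -d ≤ R := (abs_le_of_sq_le_sq' hR hd0.le).1
  have hcW : 4 * c * W ^ 2 ≤ d ^ 2 := by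
    have := sq_nonneg R
    linarith
  have hN0 : 0 ≤ (E - R) ^ 2 + M * W ^ 2 := add_nonneg (sq_nonneg _) hMW0
  have hN : (E - R) ^ 2 + M * W ^ 2 ≤ D ^ 4 + 2 * D + d ^ 2 := by
    have e1 : (E - R) ^ 2 + M * W ^ 2 = D ^ 4 - 2 * D ^ 2 * R + d ^ 2 := by
      rw [← hQ, ← hDE]
      ring
    have e2 : D ^ 2 * d = D := by
      have : D ^ 2 * d = D * (D * d) := by ring
      rw [this, hd, mul_one]
    have e3 : D ^ 2 * (-d) ≤ D ^ 2 * R := mul_le_mul_of_nonneg_left hR1 (sq_nonneg D)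
    linarith
  have hN2 : ((E - R) ^ 2 + M * W ^ 2) ^ 2 ≤ (D ^ 4 + 2 * D + d ^ 2) ^ 2 :=
    pow_le_pow_left₀ hN0 hN 2
  have h3 : 64 * c ^ 3 ≤ (D ^ 3 + 2 + d ^ 3) ^ 2 := by
    have e1 : 4 * c * (16 * c ^ 2) ≤ 4 * c * (W ^ 2 * ((E - R) ^ 2 + M * W ^ 2) ^ 2) :=
      mul_le_mul_of_nonneg_left h2 (by linarith)
    have e2 : 4 * c * W ^ 2 * ((E - R) ^ 2 + M * W ^ 2) ^ 2 ≤
        d ^ 2 * (D ^ 4 + 2 * D + d ^ 2) ^ 2 :=
      mul_le_mul hcW hN2 (sq_nonneg _) (sq_nonneg _)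
    have e3 : d ^ 2 * (D ^ 4 + 2 * D + d ^ 2) ^ 2 = (D ^ 3 + 2 + d ^ 3) ^ 2 := by
      have : d * (D ^ 4 + 2 * D + d ^ 2) = D ^ 3 + 2 + d ^ 3 := by
        linear_combination (D ^ 3 + 2) * hd
      rw [← this]
      ring
    calc 64 * c ^ 3 = 4 * c * (16 * c ^ 2) := by ring
      _ ≤ 4 * c * (W ^ 2 * ((E - R) ^ 2 + M * W ^ 2) ^ 2) := e1
      _ = 4 * c * W ^ 2 * ((E - R) ^ 2 + M * W ^ 2) ^ 2 := by ring
      _ ≤ _ := e2
      _ = _ := e3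
  have hd3 : d ^ 3 ≤ 1 := pow_le_one₀ hd0.le hd1
  have hd3' : 0 < d ^ 3 := pow_pos hd0 3
  have hD3 : 0 < D ^ 3 := pow_pos hD0 3
  have h4 : 64 * c ^ 3 ≤ (D ^ 3 + 3) ^ 2 :=
    h3.trans (pow_le_pow_left₀ (by linarith) (by linarith) 2)
  have hc3 : 27 ≤ c ^ 3 := by
    have := pow_le_pow_left₀ (by norm_num : (0 : ℝ) ≤ 3) hc 3
    linarith
  obtain ⟨t, ht0, htc⟩ : ∃ t : ℝ, 0 ≤ t ∧ t ^ 2 = c ^ 3 :=
    ⟨Real.sqrt (c ^ 3), Real.sqrt_nonneg _, Real.sq_sqrt (by linarith)⟩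
  have ht3 : 3 ≤ t := by
    by_contra h
    push Not at h
    nlinarith
  have h5 : 8 * t ≤ D ^ 3 + 3 := by
    have e : (8 * t) ^ 2 ≤ (D ^ 3 + 3) ^ 2 := by
      have : (8 * t) ^ 2 = 64 * c ^ 3 := by rw [← htc]; ring
      rw [this]
      exact h4
    exact (abs_le_of_sq_le_sq' e (by linarith)).2
  have h6 : 7 * t ≤ D ^ 3 := by linarith
  have h7 : (7 * t) ^ 2 ≤ (D ^ 3) ^ 2 := pow_le_pow_left₀ (by linarith) h6 2
  calc 49 * c ^ 3 = (7 * t) ^ 2 := by rw [← htc]; ring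
    _ ≤ (D ^ 3) ^ 2 := h7
    _ = E ^ 3 := by rw [← hDE]; ring

/-- GAP. -/
theorem hGAP (hI : StINJ) : StGAP := by
  intro c hc a hR u hn hE
  obtain ⟨hroot, -⟩ := id hR
  obtain ⟨-, hf⟩ := hI c hc a hR
  obtain ⟨p, q, r⟩ := u
  have hcR : (3 : ℝ) ≤ c := by exact_mod_cast hc
  have hnR : (p : ℝ) ^ 3 - 8 * c * p ^ 2 * r + 16 * c ^ 2 * p * r ^ 2 + 4 * c * p * q ^ 2 +
      12 * p * q * r - 16 * c * q * r ^ 2 - 4 * q ^ 3 + 16 * r ^ 3 = 1 := by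
    have := congrArg (Int.cast : ℤ → ℝ) hn
    simp only [nm] at this
    push_cast at this
    exact this
  by_cases hqr : q ^ 3 + 4 * c * q * r ^ 2 + 4 * r ^ 3 = 0
  · obtain ⟨rfl, rfl⟩ := hf q r hqr
    exfalso
    have hp : p ^ 3 = 1 := by
      simpa [nm] using hn
    have hp1 : p = 1 := by
      have h1 : (p - 1) * (p ^ 2 + p + 1) = 0 := by linear_combination hp
      rcases mul_eq_zero.1 h1 with h | h
      · linarith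
      · nlinarith [sq_nonneg (2 * p + 1)]
    rw [hp1] at hE
    simp [ev] at hE
  · have hsq : (1 : ℝ) ≤ ((q : ℝ) ^ 3 + 4 * c * q * r ^ 2 + 4 * r ^ 3) ^ 2 := by
      have h1 : (1 : ℤ) ≤ (q ^ 3 + 4 * c * q * r ^ 2 + 4 * r ^ 3) ^ 2 := by
        have := pow_pos (abs_pos.2 hqr) 2
        rw [sq_abs] at this
        linarith
      exact_mod_cast h1
    simp only [ev] at hE ⊢
    refine core (c := (c : ℝ)) (E := (p : ℝ) + q * a + r * a ^ 2)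
      (R := p - q * a / 2 - r * (a ^ 2 + 8 * c) / 2) (W := q - a * r) (M := 3 * a ^ 2 / 4 + 4 * c)
      hcR hE (by nlinarith [sq_nonneg a]) ?_ ?_
    · linear_combination hnR + ((a : ℝ) ^ 3 * r ^ 3 + 4 * a * r ^ 3 * c - 3 * p * q * r + q ^ 3 +
        4 * q * r ^ 2 * c - 4 * r ^ 3) * hroot
    · have e1 : ((q : ℝ) - a * r) ^ 2 * (((p : ℝ) + q * a + r * a ^ 2 -
          (p - q * a / 2 - r * (a ^ 2 + 8 * c) / 2)) ^ 2 +
            (3 * a ^ 2 / 4 + 4 * c) * (q - a * r) ^ 2) ^ 2 =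
          (3 * a ^ 2 + 4 * c) ^ 2 * ((q : ℝ) ^ 3 + 4 * c * q * r ^ 2 + 4 * r ^ 3) ^ 2 := by
        have e2 : ((p : ℝ) + q * a + r * a ^ 2 -
          (p - q * a / 2 - r * (a ^ 2 + 8 * c) / 2)) ^ 2 +
            (3 * a ^ 2 / 4 + 4 * c) * (q - a * r) ^ 2 =
            (3 * a ^ 2 + 4 * c) * (q ^ 2 + a * q * r + (a ^ 2 + 4 * c) * r ^ 2) := by ring
        have e3 : ((q : ℝ) - a * r) * (q ^ 2 + a * q * r + (a ^ 2 + 4 * c) * r ^ 2) =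
            (q : ℝ) ^ 3 + 4 * c * q * r ^ 2 + 4 * r ^ 3 := by
          linear_combination (-(r : ℝ) ^ 3) * hroot
        rw [e2, ← e3]
        ring
      rw [e1]
      have e4 : (4 * (c : ℝ)) ^ 2 ≤ (3 * a ^ 2 + 4 * c) ^ 2 :=
        pow_le_pow_left₀ (by linarith) (by nlinarith [sq_nonneg a]) 2
      calc 16 * (c : ℝ) ^ 2 = (4 * (c : ℝ)) ^ 2 * 1 := by ring
        _ ≤ (3 * a ^ 2 + 4 * c) ^ 2 * ((q : ℝ) ^ 3 + 4 * c * q * r ^ 2 + 4 * r ^ 3) ^ 2 :=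
          mul_le_mul e4 hsq zero_le_one (sq_nonneg _)

end Pool.Agent.Helper83.TQ
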